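import Pool.Agent.X72.Dom.C

/-!
Density domination exponents: no finite family of graphon sequences realises all finite exponents.
Pairs used: `G = K_{1,k} ⊔ K_{1,k+2}`, `H = K_{1,k+1} ⊔ K_{1,k+1}`, with
`ρ(G, H) = 2 (k + 1) / (2 k + 1)`; a sequence of graphons is tight for at most one `k`.
-/

open MeasureTheory unitInterval

namespace Pool.Agent.Results.MP_828339_co.NoFiniteFamily

/-- A graphon: a symmetric measurable function `W : [0,1]² → [0,1]`. -/
structure Graphon where
  W : I → I → ℝ
  symm : ∀ x y, W x y = W y x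
  meas : Measurable (Function.uncurry W)
  nonneg : ∀ x y, 0 ≤ W x y
  le_one : ∀ x y, W x y ≤ 1

open Classical in
/-- The homomorphism density `t(G, W)`: the integral over all `x : V(G) → [0,1]` of the product over
the edges `{u, v}` of `G` of `W(x_u, x_v)`. -/
noncomputable def Graphon.t (W : Graphon) {V : Type} [Fintype V] (G : SimpleGraph V) : ℝ :=
  ∫ x : V → I, ∏ e ∈ G.edgeFinset,
    Sym2.lift ⟨fun u v => W.W (x u) (x v), fun u v => W.symm (x u) (x v)⟩ e

/-- The density domination exponent `ρ(G, H)` is finite and equal to `ρ`: the supremum of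
`log t(H, W) / log t(G, W)` over the graphons `W` with `t(G, W) ≠ 0, 1` is `ρ` (in particular
`t(H, W) ≠ 0` for these `W`, since otherwise the ratio is infinite). -/
def IsDominationExponent {V V' : Type} [Fintype V] [Fintype V'] (G : SimpleGraph V)
    (H : SimpleGraph V') (ρ : ℝ) : Prop :=
  (∀ W : Graphon, W.t G ≠ 0 → W.t G ≠ 1 →
    W.t H ≠ 0 ∧ Real.log (W.t H) / Real.log (W.t G) ≤ ρ) ∧
  ∀ c < ρ, ∃ W : Graphon, W.t G ≠ 0 ∧ W.t G ≠ 1 ∧ c < Real.log (W.t H) / Real.log (W.t G)

/-- translation to the helper file -/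
def tr (W : Graphon) : Pool.Agent.X72.Dom.Graphon := ⟨W.W, W.symm, W.meas, W.nonneg, W.le_one⟩

def rt (W : Pool.Agent.X72.Dom.Graphon) : Graphon := ⟨W.W, W.symm, W.meas, W.nonneg, W.le_one⟩

lemma t_tr (W : Graphon) {V : Type} [Fintype V] (G : SimpleGraph V) : W.t G = (tr W).t G := rfl

lemma t_rt (W : Pool.Agent.X72.Dom.Graphon) {V : Type} [Fintype V] (G : SimpleGraph V) :
    (rt W).t G = W.t G := rfl

theorem exponent (k : ℕ) : IsDominationExponent (Pool.Agent.X72.Dom.stars k (k + 2))
    (Pool.Agent.X72.Dom.stars (k + 1) (k + 1)) (2 * ((k : ℝ) + 1) / (2 * k + 1)) := by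
  constructor
  · intro W h0 h1
    rw [t_tr] at h0 h1
    rw [t_tr, t_tr]
    have h2 : (tr W).m (k + 1 + 1) ≠ 0 := by
      intro h
      apply h0
      rw [Pool.Agent.X72.Dom.t_stars]
      have : (tr W).m (k + 2) = 0 := h
      rw [this, mul_zero]
    have hpos := Pool.Agent.X72.Dom.m_pos (tr W) h2
    refine ⟨?_, ?_⟩
    · rw [Pool.Agent.X72.Dom.t_stars]
      exact mul_ne_zero (hpos _).ne' (hpos _).ne'
    · by_cases hr : Pool.Agent.X72.Dom.rat k (tr W) = 0
      · have : Pool.Agent.X72.Dom.rat k (tr W) ≤ 2 * ((k : ℝ) + 1) / (2 * k + 1) := by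
          rw [hr]
          positivity
        exact this
      · exact Pool.Agent.X72.Dom.rat_upper hr
  · intro c hc
    obtain ⟨W, h1, h2, -, h3⟩ := Pool.Agent.X72.Dom.exists_hub k hc
    exact ⟨rt W, h1, h2, h3⟩

/-- Q1 of MP_828339_co: for every finite family of graphon sequences there are graphs `G`, `H` with
finite density domination exponent `ρ` such that for no sequence `(W_n)` of the family the ratio
`log t(H, W_n) / log t(G, W_n)` converges to `ρ`. -/
theorem result (N : ℕ) (F : Fin N → ℕ → Graphon) :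
    ∃ (V V' : Type) (_ : Fintype V) (_ : Fintype V') (G : SimpleGraph V) (H : SimpleGraph V')
      (ρ : ℝ), IsDominationExponent G H ρ ∧
        ∀ i, ¬ Filter.Tendsto (fun n => Real.log ((F i n).t H) / Real.log ((F i n).t G))
          Filter.atTop (nhds ρ) := by
  by_contra hcon
  have h : ∀ k : Fin (N + 1), ∃ i : Fin N,
      Filter.Tendsto (fun n => Pool.Agent.X72.Dom.rat k (tr (F i n))) Filter.atTop
        (nhds (2 * (((k : ℕ) : ℝ) + 1) / (2 * (k : ℕ) + 1))) := by
    intro k
    by_contra hk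
    push Not at hk
    exact hcon ⟨_, _, inferInstance, inferInstance, _, _, _, exponent k, hk⟩
  choose g hg using h
  obtain ⟨k, l, hkl, hgl⟩ := Fintype.exists_ne_map_eq_of_card_lt g (by simp)
  rcases lt_or_gt_of_ne hkl with h1 | h1
  · exact Pool.Agent.X72.Dom.no_two (W := fun n => tr (F (g k) n)) h1 (hg k) (hgl ▸ hg l)
  · exact Pool.Agent.X72.Dom.no_two (W := fun n => tr (F (g k) n)) h1 (hgl ▸ hg l) (hg k)

end Pool.Agent.Results.MP_828339_co.NoFiniteFamily
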